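import Pool.Agent.Helper4.BT.Defs

/-! The fundamental solution of the Laplacian on `ℝ⁶` and the Newtonian potential
(blocks BT-KER1, BT-KER2). -/

namespace Pool.Helper4.BT
open MeasureTheory Metric Set Laplacian InnerProductSpace Filter Topology

namespace KER

/-- basis vectors -/
noncomputable abbrev ei (i : Fin 6) : E := EuclideanSpace.single i 1

lemma finrank_E : Module.finrank ℝ E = 6 := by simp

lemma integrableOn_inv_pow (m : ℕ) (hm : m ≤ 5) (r : ℝ) :
    IntegrableOn (fun x : E => (‖x‖ ^ m)⁻¹) (ball 0 r) := by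
  refine (integrableOn_fun_norm_addHaar (E := E) volume (f := fun t : ℝ => (t ^ m)⁻¹)
    (r := r)).2 ?_
  rw [finrank_E]
  have h1 : IntegrableOn (fun y : ℝ => y ^ (5 - m)) (Ioo 0 r) := by
    refine IntegrableOn.mono_set (t := Icc 0 r) ?_ Ioo_subset_Icc_self
    exact (continuous_pow _).continuousOn.integrableOn_compact isCompact_Icc
  refine h1.congr_fun (fun y hy => ?_) measurableSet_Ioo
  have hy0 : y ≠ 0 := hy.1.ne'
  simp only [smul_eq_mul]
  have : y ^ (6 - 1) = y ^ (5 - m) * y ^ m := by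
    rw [← pow_add]
    congr 1
    omega
  rw [this]
  field_simp

lemma locallyIntegrable_inv_pow (m : ℕ) (hm : m ≤ 5) :
    LocallyIntegrable (fun x : E => (‖x‖ ^ m)⁻¹) := by
  intro x
  refine ⟨ball 0 (‖x‖ + 1), ?_, integrableOn_inv_pow m hm _⟩
  exact isOpen_ball.mem_nhds (by simp)

lemma locallyIntegrable_Gam : LocallyIntegrable Gam := by
  have := (locallyIntegrable_inv_pow 4 (by norm_num)).smul cG
  exact this

/-- integrability of a locally integrable kernel against a bounded function of compact support -/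
lemma integrable_kernel_mul {k : E → ℝ} (hk : LocallyIntegrable k) (x : E) {f : E → ℝ}
    (hf : Continuous f) (hc : HasCompactSupport f) :
    Integrable (fun y => k (x - y) * f y) := by
  have h1 : LocallyIntegrable (fun y => k (x - y)) := by
    intro y
    obtain ⟨s, hs, hs2⟩ := hk (x - y)
    refine ⟨(fun y => x - y) ⁻¹' s, ?_, ?_⟩
    · exact (continuous_const.sub continuous_id).continuousAt.preimage_mem_nhds hs
    · exact (Measure.measurePreserving_sub_left volume x).integrableOn_comp_preimage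
        (MeasurableEquiv.subLeft x).measurableEmbedding |>.2 hs2
  exact (h1.integrable_smul_left_of_hasCompactSupport hf hc).congr
    (Eventually.of_forall fun y => by simp [mul_comm])

lemma integrable_bump : Integrable (fun y : E => 24 / (1 + ‖y‖ ^ 2) ^ 4) := by
  have h1 : Integrable (fun x : E => ((1 : ℝ) + ‖x‖ ^ 2) ^ (-(8 : ℝ) / 2)) :=
    integrable_rpow_neg_one_add_norm_sq (by rw [finrank_E]; norm_num)
  refine (h1.const_mul 24).congr (Eventually.of_forall fun y => ?_)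
  simp only
  have h0 : (0 : ℝ) < 1 + ‖y‖ ^ 2 := by positivity
  rw [show (-(8 : ℝ) / 2) = -((4 : ℕ) : ℝ) by norm_num, Real.rpow_neg h0.le,
    Real.rpow_natCast]
  rfl

lemma integral_bump_pos : 0 < ∫ y : E, 24 / (1 + ‖y‖ ^ 2) ^ 4 := by
  rw [integral_pos_iff_support_of_nonneg (fun y => by positivity) integrable_bump]
  have : Function.support (fun y : E => (24 : ℝ) / (1 + ‖y‖ ^ 2) ^ 4) = univ := by
    ext y
    simp only [Function.mem_support, mem_univ, iff_true]
    positivity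
  rw [this]
  exact isOpen_univ.measure_pos volume univ_nonempty

end KER

theorem cG_pos : 0 < cG := inv_pos.2 KER.integral_bump_pos

namespace KER

lemma lap_eq_sum (f : E → ℝ) (hf : ContDiff ℝ 2 f) (x : E) :
    (Δ f) x = ∑ i, fderiv ℝ (fun y => fderiv ℝ f y (ei i)) x (ei i) := by
  rw [laplacian_eq_iteratedFDeriv_orthonormalBasis f (EuclideanSpace.basisFun (Fin 6) ℝ)]
  refine Finset.sum_congr rfl fun i _ => ?_
  rw [iteratedFDeriv_two_apply]
  simp only [Matrix.cons_val_zero, Matrix.cons_val_one, EuclideanSpace.basisFun_apply]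
  have h1 : DifferentiableAt ℝ (fderiv ℝ f) x :=
    (hf.fderiv_right (m := 1) (by norm_num)).differentiable (by norm_num) x
  rw [fderiv_clm_apply h1 (by fun_prop)]
  simp

/-- integration by parts against a function of compact support -/
lemma ibp (g φ : E → ℝ) (hg : ContDiff ℝ 1 g) (hφ : ContDiff ℝ 1 φ) (hc : HasCompactSupport φ)
    (v : E) : ∫ y, g y * fderiv ℝ φ y v = -∫ y, fderiv ℝ g y v * φ y := by
  have hg' : Continuous fun y => fderiv ℝ g y v :=
    (hg.continuous_fderiv (by norm_num)).clm_apply continuous_const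
  have hφ' : Continuous fun y => fderiv ℝ φ y v :=
    (hφ.continuous_fderiv (by norm_num)).clm_apply continuous_const
  refine integral_mul_fderiv_eq_neg_fderiv_mul_of_integrable ?_ ?_ ?_
    (fun y _ => hg.differentiable (by norm_num) y) (fun y _ => hφ.differentiable (by norm_num) y)
  · exact (hg'.mul hφ.continuous).integrable_of_hasCompactSupport hc.mul_left
  · exact (hg.continuous.mul hφ').integrable_of_hasCompactSupport
      (hc.fderiv_apply ℝ v).mul_left
  · exact (hg.continuous.mul hφ.continuous).integrable_of_hasCompactSupport hc.mul_left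

/-- `e² + |x - y|²` -/
noncomputable def B (e : ℝ) (x y : E) : ℝ := e ^ 2 + ‖x - y‖ ^ 2

lemma B_pos {e : ℝ} (he : 0 < e) (x y : E) : 0 < B e x y := by
  unfold B; positivity

lemma contDiff_B (e : ℝ) (x : E) {n : WithTop ℕ∞} : ContDiff ℝ n (B e x) := by
  unfold B
  exact contDiff_const.add ((contDiff_const.sub contDiff_id).norm_sq ℝ)

lemma hasFDerivAt_B (e : ℝ) (x y : E) :
    HasFDerivAt (B e x) (-(2 : ℝ) • innerSL ℝ (x - y)) y := by
  have h1 : HasFDerivAt (fun y : E => x - y) (-ContinuousLinearMap.id ℝ E) y := by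
    simpa using (hasFDerivAt_id y).const_sub x
  have h2 := h1.norm_sq.const_add (e ^ 2)
  unfold B
  refine h2.congr_fderiv ?_
  ext v
  simp
  ring

/-- the regularised kernel -/
noncomputable def g0 (e : ℝ) (x y : E) : ℝ := cG * (B e x y ^ 2)⁻¹

/-- its directional derivative -/
noncomputable def g1 (e : ℝ) (x v y : E) : ℝ := 4 * cG * inner ℝ (x - y) v * (B e x y ^ 3)⁻¹

lemma contDiff_g0 {e : ℝ} (he : 0 < e) (x : E) {n : WithTop ℕ∞} : ContDiff ℝ n (g0 e x) := by
  unfold g0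
  exact contDiff_const.mul (((contDiff_B e x).pow 2).inv fun y => by
    have := B_pos he x y; positivity)

lemma contDiff_g1 {e : ℝ} (he : 0 < e) (x v : E) {n : WithTop ℕ∞} :
    ContDiff ℝ n (g1 e x v) := by
  unfold g1
  refine ContDiff.mul (contDiff_const.mul ?_) (((contDiff_B e x).pow 3).inv fun y => by
    have := B_pos he x y; positivity)
  exact (contDiff_const.sub contDiff_id).inner ℝ contDiff_const

lemma fderiv_g0 {e : ℝ} (he : 0 < e) (x v y : E) :
    fderiv ℝ (g0 e x) y v = g1 e x v y := by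
  have hB := B_pos he x y
  have h1 : HasDerivAt (fun b : ℝ => cG * (b ^ 2)⁻¹) (cG * (-2 * (B e x y ^ 3)⁻¹)) (B e x y) := by
    have h2 := ((hasDerivAt_pow 2 (B e x y)).inv (by positivity)).const_mul cG
    refine h2.congr_deriv ?_
    field_simp
    ring
  have h2 := h1.comp_hasFDerivAt y (hasFDerivAt_B e x y)
  have h3 : HasFDerivAt (g0 e x) _ y := h2
  rw [h3.fderiv]
  simp only [g1, smul_apply, innerSL_apply_apply, smul_eq_mul]
  ring

lemma fderiv_g1 {e : ℝ} (he : 0 < e) (x v y : E) :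
    fderiv ℝ (g1 e x v) y v = -4 * cG * ‖v‖ ^ 2 * (B e x y ^ 3)⁻¹ +
      24 * cG * (inner ℝ (x - y) v) ^ 2 * (B e x y ^ 4)⁻¹ := by
  have hB := B_pos he x y
  have h1 : HasDerivAt (fun b : ℝ => (b ^ 3)⁻¹) (-3 * (B e x y ^ 4)⁻¹) (B e x y) := by
    have h2 := (hasDerivAt_pow 3 (B e x y)).inv (by positivity)
    refine h2.congr_deriv ?_
    field_simp
    ring
  have h2 := h1.comp_hasFDerivAt y (hasFDerivAt_B e x y)
  have h3 : HasFDerivAt (fun y : E => inner ℝ (x - y) v) (-innerSL ℝ v) y := by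
    have h4 : (fun y : E => inner ℝ (x - y) v) = fun y => inner ℝ v x - innerSL ℝ v y := by
      funext y
      rw [inner_sub_left, innerSL_apply_apply, real_inner_comm x v, real_inner_comm y v]
    rw [h4]
    simpa using (innerSL ℝ v).hasFDerivAt.const_sub (inner ℝ v x)
  have h4 : HasFDerivAt (g1 e x v) _ y := (h3.const_mul (4 * cG)).mul h2
  rw [h4.fderiv]
  simp only [add_apply, smul_apply, innerSL_apply_apply, smul_eq_mul, neg_apply]
  rw [real_inner_self_eq_norm_sq]
  ring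

lemma lap_kernel {e : ℝ} (he : 0 < e) (x y : E) :
    ∑ i, fderiv ℝ (g1 e x (ei i)) y (ei i) = -(cG * (24 * e ^ 2) * (B e x y ^ 4)⁻¹) := by
  have hB := B_pos he x y
  simp only [fderiv_g1 he]
  rw [Finset.sum_add_distrib]
  have h1 : ∀ i : Fin 6, ‖ei i‖ = 1 := fun i => by simp
  simp only [h1]
  have h2 : ∑ i, 24 * cG * (inner ℝ (x - y) (ei i)) ^ 2 * (B e x y ^ 4)⁻¹ =
      24 * cG * ‖x - y‖ ^ 2 * (B e x y ^ 4)⁻¹ := by
    rw [← Finset.sum_mul, ← Finset.mul_sum]
    congr 2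
    rw [EuclideanSpace.norm_sq_eq]
    refine Finset.sum_congr rfl fun i _ => ?_
    rw [EuclideanSpace.inner_single_right]
    simp
  rw [h2]
  have h3 : ‖x - y‖ ^ 2 = B e x y - e ^ 2 := by unfold B; ring
  rw [h3]
  simp only [Finset.sum_const, Finset.card_univ, Fintype.card_fin, nsmul_eq_mul]
  field_simp
  ring

lemma green {e : ℝ} (he : 0 < e) (x : E) (φ : E → ℝ) (hφ : ContDiff ℝ 2 φ)
    (hc : HasCompactSupport φ) :
    ∫ y, g0 e x y * (-(Δ φ) y) = ∫ y, (cG * (24 * e ^ 2) * (B e x y ^ 4)⁻¹) * φ y := by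
  have hφ1 : ∀ i, ContDiff ℝ 1 (fun y => fderiv ℝ φ y (ei i)) := fun i =>
    (hφ.fderiv_right (m := 1) (by norm_num)).clm_apply contDiff_const
  have hφ2 : ∀ i, Continuous (fun y => fderiv ℝ (fun y => fderiv ℝ φ y (ei i)) y (ei i)) :=
    fun i => ((hφ1 i).continuous_fderiv (by norm_num)).clm_apply continuous_const
  have hc1 : ∀ i, HasCompactSupport (fun y => fderiv ℝ φ y (ei i)) := fun i =>
    hc.fderiv_apply ℝ _
  have hc2 : ∀ i, HasCompactSupport (fun y => fderiv ℝ (fun y => fderiv ℝ φ y (ei i)) y (ei i)) :=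
    fun i => (hc1 i).fderiv_apply ℝ _
  have hg := contDiff_g0 he x (n := 1)
  have hg1 : ∀ i, ContDiff ℝ 1 (g1 e x (ei i)) := fun i => contDiff_g1 he x _
  have hg2 : ∀ i, Continuous (fun y => fderiv ℝ (g1 e x (ei i)) y (ei i)) := fun i =>
    ((hg1 i).continuous_fderiv (by norm_num)).clm_apply continuous_const
  have h1 : ∀ y, g0 e x y * (-(Δ φ) y) =
      -∑ i, g0 e x y * fderiv ℝ (fun y => fderiv ℝ φ y (ei i)) y (ei i) := by
    intro y
    rw [lap_eq_sum φ hφ, ← Finset.mul_sum]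
    ring
  have h2 : ∀ y, (cG * (24 * e ^ 2) * (B e x y ^ 4)⁻¹) * φ y =
      -∑ i, fderiv ℝ (g1 e x (ei i)) y (ei i) * φ y := by
    intro y
    rw [← Finset.sum_mul, lap_kernel he]
    ring
  simp only [h1, h2]
  rw [integral_neg, integral_neg, integral_finsetSum, integral_finsetSum]
  · congr 1
    refine Finset.sum_congr rfl fun i _ => ?_
    rw [ibp _ _ hg (hφ1 i) (hc1 i)]
    simp only [fderiv_g0 he]
    rw [ibp _ _ (hg1 i) (hφ.of_le (by norm_num)) hc, neg_neg]
  · intro i _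
    exact ((hg2 i).mul hφ.continuous).integrable_of_hasCompactSupport hc.mul_left
  · intro i _
    exact (hg.continuous.mul (hφ2 i)).integrable_of_hasCompactSupport (hc2 i).mul_left

lemma continuous_lap (φ : E → ℝ) (hφ : ContDiff ℝ 2 φ) : Continuous (Δ φ) := by
  have h1 : (Δ φ) = fun x => ∑ i, fderiv ℝ (fun y => fderiv ℝ φ y (ei i)) x (ei i) := by
    funext x
    exact lap_eq_sum φ hφ x
  rw [h1]
  refine continuous_finsetSum _ fun i _ => ?_
  have : ContDiff ℝ 1 (fun y => fderiv ℝ φ y (ei i)) :=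
    (hφ.fderiv_right (m := 1) (by norm_num)).clm_apply contDiff_const
  exact (this.continuous_fderiv (by norm_num)).clm_apply continuous_const

lemma hasCompactSupport_lap (φ : E → ℝ) (hφ : ContDiff ℝ 2 φ) (hc : HasCompactSupport φ) :
    HasCompactSupport (Δ φ) := by
  have h1 : (Δ φ) = fun x => ∑ i, fderiv ℝ (fun y => fderiv ℝ φ y (ei i)) x (ei i) := by
    funext x
    exact lap_eq_sum φ hφ x
  rw [h1]
  refine HasCompactSupport.intro (K := tsupport φ) hc fun x hx => ?_
  refine Finset.sum_eq_zero fun i _ => ?_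
  have h2 : x ∉ tsupport (fun y => fderiv ℝ (fun y => fderiv ℝ φ y (ei i)) y (ei i)) := by
    intro h
    refine hx ?_
    exact tsupport_fderiv_apply_subset ℝ _ (tsupport_fderiv_apply_subset ℝ _ h)
  exact image_eq_zero_of_notMem_tsupport
    (f := fun y => fderiv ℝ (fun y => fderiv ℝ φ y (ei i)) y (ei i)) h2

/-- bound of the regularised kernel by the kernel -/
lemma g0_le (e : ℝ) {x y : E} (hy : y ≠ x) : ‖g0 e x y‖ ≤ Gam (x - y) := by
  have h0 : 0 < ‖x - y‖ := norm_pos_iff.2 (sub_ne_zero.2 hy.symm)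
  have hcG := cG_pos
  have hB : ‖x - y‖ ^ 2 ≤ B e x y := by unfold B; nlinarith [sq_nonneg e]
  unfold g0 Gam
  rw [Real.norm_of_nonneg (by positivity)]
  refine mul_le_mul_of_nonneg_left ?_ hcG.le
  refine inv_anti₀ (by positivity) ?_
  calc ‖x - y‖ ^ 4 = (‖x - y‖ ^ 2) ^ 2 := by ring
    _ ≤ _ := by gcongr

lemma tendsto_g0 {x y : E} (hy : y ≠ x) :
    Tendsto (fun c : ℝ => g0 c⁻¹ x y) atTop (𝓝 (Gam (x - y))) := by
  have h0 : 0 < ‖x - y‖ := norm_pos_iff.2 (sub_ne_zero.2 hy.symm)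
  have h1 : Tendsto (fun c : ℝ => B c⁻¹ x y) atTop (𝓝 (0 ^ 2 + ‖x - y‖ ^ 2)) := by
    unfold B
    exact (tendsto_inv_atTop_zero.pow 2).add tendsto_const_nhds
  have h2 : Tendsto (fun c : ℝ => g0 c⁻¹ x y) atTop (𝓝 (cG * ((0 ^ 2 + ‖x - y‖ ^ 2) ^ 2)⁻¹)) := by
    unfold g0
    exact ((h1.pow 2).inv₀ (by positivity)).const_mul cG
  have h3 : cG * ((0 ^ 2 + ‖x - y‖ ^ 2) ^ 2)⁻¹ = Gam (x - y) := by
    unfold Gam
    congr 2
    ring
  rwa [h3] at h2

lemma ae_ne (x : E) : ∀ᵐ y : E, y ≠ x := by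
  rw [ae_iff]
  simp

/-- the potential is the limit of the regularised potentials -/
lemma tendsto_potential (x : E) {f : E → ℝ} (hf : Continuous f) (hc : HasCompactSupport f) :
    Tendsto (fun c : ℝ => ∫ y, g0 c⁻¹ x y * f y) atTop (𝓝 (N f x)) := by
  unfold N
  refine tendsto_integral_filter_of_dominated_convergence (fun y => ‖Gam (x - y) * f y‖)
    ?_ ?_ ?_ ?_
  · filter_upwards [eventually_gt_atTop 0] with c hc0
    exact ((contDiff_g0 (inv_pos.2 hc0) x (n := 0)).continuous.mul hf).aestronglyMeasurable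
  · filter_upwards [eventually_gt_atTop 0] with c hc0
    filter_upwards [ae_ne x] with y hy
    rw [norm_mul, norm_mul]
    refine mul_le_mul_of_nonneg_right ?_ (norm_nonneg _)
    exact (g0_le _ hy).trans (le_abs_self _)
  · exact (integrable_kernel_mul locallyIntegrable_Gam x hf hc).norm
  · filter_upwards [ae_ne x] with y hy
    exact (tendsto_g0 hy).mul_const _

/-- the approximate identity -/
lemma tendsto_identity (x : E) {φ : E → ℝ} (hf : Continuous φ) (hc : HasCompactSupport φ) :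
    Tendsto (fun c : ℝ => ∫ y, (cG * (24 * c⁻¹ ^ 2) * (B c⁻¹ x y ^ 4)⁻¹) * φ y) atTop
      (𝓝 (φ x)) := by
  have hcG := cG_pos
  have h1 := tendsto_integral_comp_smul_smul_of_integrable' (μ := (volume : Measure E))
    (φ := fun w : E => cG * (24 / (1 + ‖w‖ ^ 2) ^ 4)) (g := φ) (x₀ := x)
    (fun w => by positivity) ?_ ?_ (hf.integrable_of_hasCompactSupport hc) hf.continuousAt
  · refine h1.congr' ?_
    filter_upwards [eventually_gt_atTop 0] with c hc0
    refine integral_congr_ae (Eventually.of_forall fun y => ?_)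
    simp only [smul_eq_mul, finrank_E]
    congr 1
    have h2 : ‖c • (x - y)‖ ^ 2 = c ^ 2 * ‖x - y‖ ^ 2 := by
      rw [norm_smul, mul_pow, Real.norm_eq_abs, sq_abs]
    rw [h2]
    have h3 : 1 + c ^ 2 * ‖x - y‖ ^ 2 = c ^ 2 * B c⁻¹ x y := by
      unfold B
      field_simp
    rw [h3]
    have := B_pos (inv_pos.2 hc0) x y
    field_simp
  · rw [integral_const_mul]
    exact inv_mul_cancel₀ integral_bump_pos.ne'
  · rw [finrank_E]
    have h2 : Tendsto (fun w : E => (cG * 24) * (‖w‖ ^ 2)⁻¹) (Bornology.cobounded E) (𝓝 0) := by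
      have h3 : Tendsto (fun w : E => ‖w‖ ^ 2) (Bornology.cobounded E) atTop :=
        (tendsto_pow_atTop (by norm_num)).comp tendsto_norm_cobounded_atTop
      have := (tendsto_inv_atTop_zero.comp h3).const_mul (cG * 24)
      simpa using this
    refine squeeze_zero (fun w => by positivity) (fun w => ?_) h2
    rcases eq_or_ne w 0 with rfl | hw
    · simp
    · have h0 : 0 < ‖w‖ := norm_pos_iff.2 hw
      have h4 : (‖w‖ ^ 2) ^ 4 ≤ (1 + ‖w‖ ^ 2) ^ 4 := by gcongr; linarith
      calc ‖w‖ ^ 6 * (cG * (24 / (1 + ‖w‖ ^ 2) ^ 4))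
          ≤ ‖w‖ ^ 6 * (cG * (24 / (‖w‖ ^ 2) ^ 4)) := by gcongr
        _ = _ := by field_simp

end KER

theorem N_neg_lap (φ : E → ℝ) (hφ : ContDiff ℝ 2 φ) (hc : HasCompactSupport φ) (x : E) :
    N (fun y => -(Δ φ) y) x = φ x := by
  have h1 := KER.tendsto_potential x (f := fun y => -(Δ φ) y) (KER.continuous_lap φ hφ).neg
    (KER.hasCompactSupport_lap φ hφ hc).neg
  have h2 := KER.tendsto_identity x hφ.continuous hc
  refine tendsto_nhds_unique (h1.congr' ?_) h2
  filter_upwards [eventually_gt_atTop 0] with c hc0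
  exact KER.green (inv_pos.2 hc0) x φ hφ hc

namespace KER

open ContinuousLinearMap in
lemma N_eq_conv (f : E → ℝ) : N f = MeasureTheory.convolution Gam f (mul ℝ ℝ) volume := by
  funext x
  unfold N MeasureTheory.convolution
  rw [← integral_sub_left_eq_self (fun t => (mul ℝ ℝ) (Gam t) (f (x - t))) volume x]
  simp

end KER

open ContinuousLinearMap in
theorem contDiff_N (f : E → ℝ) (hf : ContDiff ℝ 1 f) (hc : HasCompactSupport f) :
    ContDiff ℝ 1 (N f) := by
  rw [KER.N_eq_conv]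
  exact hc.contDiff_convolution_right (n := 1) (mul ℝ ℝ) KER.locallyIntegrable_Gam hf

namespace KER

open ContinuousLinearMap in
/-- the derivative of the potential is the potential of the derivative -/
lemma fderiv_N_eq (f : E → ℝ) (hf : ContDiff ℝ 1 f) (hc : HasCompactSupport f) (x v : E) :
    fderiv ℝ (N f) x v = N (fun y => fderiv ℝ f y v) x := by
  rw [N_eq_conv]
  rw [(hc.hasFDerivAt_convolution_right (mul ℝ ℝ) locallyIntegrable_Gam hf x).fderiv]
  rw [convolution_precompR_apply (mul ℝ ℝ) locallyIntegrable_Gam (hc.fderiv ℝ)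
    (hf.continuous_fderiv (by norm_num)), N_eq_conv]

lemma g1_le (e : ℝ) {x y : E} (hy : y ≠ x) (v : E) :
    ‖g1 e x v y‖ ≤ 4 * cG * ‖v‖ * (‖x - y‖ ^ 5)⁻¹ := by
  have h0 : 0 < ‖x - y‖ := norm_pos_iff.2 (sub_ne_zero.2 hy.symm)
  have hcG := cG_pos
  have hB : ‖x - y‖ ^ 2 ≤ B e x y := by unfold B; nlinarith [sq_nonneg e]
  unfold g1
  rw [norm_mul, norm_mul, norm_mul, norm_inv, norm_pow, Real.norm_of_nonneg hcG.le,
    Real.norm_of_nonneg (by positivity : (0 : ℝ) ≤ 4),
    Real.norm_of_nonneg (le_trans (by positivity) hB)]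
  have h1 : ‖(inner ℝ (x - y) v : ℝ)‖ ≤ ‖x - y‖ * ‖v‖ := norm_inner_le_norm _ _
  have h2 : (B e x y ^ 3)⁻¹ ≤ ((‖x - y‖ ^ 2) ^ 3)⁻¹ := by
    refine inv_anti₀ (by positivity) ?_
    gcongr
  calc 4 * cG * ‖(inner ℝ (x - y) v : ℝ)‖ * (B e x y ^ 3)⁻¹
      ≤ 4 * cG * (‖x - y‖ * ‖v‖) * ((‖x - y‖ ^ 2) ^ 3)⁻¹ := by
        gcongr
        exact inv_nonneg.2 (pow_nonneg (le_trans (by positivity) hB) _)
    _ = _ := by field_simp

lemma tendsto_g1 {x y : E} (hy : y ≠ x) (v : E) :
    Tendsto (fun c : ℝ => g1 c⁻¹ x v y) atTop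
      (𝓝 (4 * cG * inner ℝ (x - y) v / ‖x - y‖ ^ 6)) := by
  have h0 : 0 < ‖x - y‖ := norm_pos_iff.2 (sub_ne_zero.2 hy.symm)
  have h1 : Tendsto (fun c : ℝ => B c⁻¹ x y) atTop (𝓝 (0 ^ 2 + ‖x - y‖ ^ 2)) := by
    unfold B
    exact (tendsto_inv_atTop_zero.pow 2).add tendsto_const_nhds
  have h2 : Tendsto (fun c : ℝ => g1 c⁻¹ x v y) atTop
      (𝓝 (4 * cG * inner ℝ (x - y) v * ((0 ^ 2 + ‖x - y‖ ^ 2) ^ 3)⁻¹)) := by
    unfold g1
    exact ((h1.pow 3).inv₀ (by positivity)).const_mul _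
  have h3 : 4 * cG * inner ℝ (x - y) v * ((0 ^ 2 + ‖x - y‖ ^ 2) ^ 3)⁻¹ =
      4 * cG * inner ℝ (x - y) v / ‖x - y‖ ^ 6 := by
    rw [div_eq_mul_inv]
    congr 2
    ring
  rwa [h3] at h2

end KER

theorem fderiv_N (f : E → ℝ) (hf : ContDiff ℝ 1 f) (hc : HasCompactSupport f) (x v : E) :
    fderiv ℝ (N f) x v = ∫ y, (-4 * cG * inner ℝ (x - y) v / ‖x - y‖ ^ 6) * f y := by
  rw [KER.fderiv_N_eq f hf hc]
  have hcont : Continuous fun y => fderiv ℝ f y v :=
    (hf.continuous_fderiv (by norm_num)).clm_apply continuous_const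
  have h1 := KER.tendsto_potential x hcont (hc.fderiv_apply ℝ v)
  have h2 : Tendsto (fun c : ℝ => ∫ y, KER.g1 c⁻¹ x v y * f y) atTop
      (𝓝 (∫ y, 4 * cG * inner ℝ (x - y) v / ‖x - y‖ ^ 6 * f y)) := by
    refine tendsto_integral_filter_of_dominated_convergence
      (fun y => 4 * cG * ‖v‖ * ‖(‖x - y‖ ^ 5)⁻¹ * f y‖) ?_ ?_ ?_ ?_
    · filter_upwards [eventually_gt_atTop 0] with c hc0
      exact ((KER.contDiff_g1 (inv_pos.2 hc0) x v (n := 0)).continuous.mul
        hf.continuous).aestronglyMeasurable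
    · filter_upwards with c
      filter_upwards [KER.ae_ne x] with y hy
      rw [norm_mul, norm_mul]
      have := KER.g1_le c⁻¹ hy v
      rw [Real.norm_of_nonneg (by positivity : (0 : ℝ) ≤ (‖x - y‖ ^ 5)⁻¹), ← mul_assoc]
      exact mul_le_mul_of_nonneg_right this (norm_nonneg _)
    · exact ((KER.integrable_kernel_mul (KER.locallyIntegrable_inv_pow 5 le_rfl) x
        hf.continuous hc).norm).const_mul _
    · filter_upwards [KER.ae_ne x] with y hy
      exact (KER.tendsto_g1 hy v).mul_const _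
  have h3 : N (fun y => fderiv ℝ f y v) x =
      -∫ y, 4 * cG * inner ℝ (x - y) v / ‖x - y‖ ^ 6 * f y := by
    refine tendsto_nhds_unique (h1.congr' ?_) h2.neg
    filter_upwards [eventually_gt_atTop 0] with c hc0
    rw [KER.ibp _ _ (KER.contDiff_g0 (inv_pos.2 hc0) x) hf hc]
    simp only [KER.fderiv_g0 (inv_pos.2 hc0)]
  rw [h3, ← integral_neg]
  refine integral_congr_ae (Eventually.of_forall fun y => ?_)
  simp only
  ring

end Pool.Helper4.BT
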