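import Pool.Agent.Helper17.BT.Out
import Pool.Agent.Helper17.BT.Kernel

/-! Comparison of the two outer fields (block BT-FE01). -/

namespace Pool.Helper4.BT
open MeasureTheory Metric Set

namespace FE01

/-- `|s^{-4} - t^{-4}| ≤ 4 |s - t| (s^{-5} + t^{-5})` -/
lemma inv_diff {s t : ℝ} (hs : 0 < s) (ht : 0 < t) :
    |(s ^ 4)⁻¹ - (t ^ 4)⁻¹| ≤ 4 * |s - t| * (1 / s ^ 5 + 1 / t ^ 5) := by
  wlog hst : s ≤ t generalizing s t
  · have := this ht hs (le_of_not_ge hst)
    rw [abs_sub_comm, abs_sub_comm s t, add_comm (1 / s ^ 5)]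
    exact this
  have h1 : (t ^ 4)⁻¹ ≤ (s ^ 4)⁻¹ := inv_anti₀ (by positivity) (by gcongr)
  rw [abs_of_nonneg (by linarith), abs_sub_comm, abs_of_nonneg (by linarith : (0 : ℝ) ≤ t - s)]
  have h2 : (s ^ 4)⁻¹ - (t ^ 4)⁻¹ = (t - s) * ((t ^ 3 + t ^ 2 * s + t * s ^ 2 + s ^ 3) /
      (s ^ 4 * t ^ 4)) := by
    field_simp
    ring
  have h3 : (t ^ 3 + t ^ 2 * s + t * s ^ 2 + s ^ 3) / (s ^ 4 * t ^ 4) ≤ 4 * (1 / s ^ 5) := by
    rw [mul_one_div, div_le_div_iff₀ (by positivity) (by positivity)]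
    have e1 : t ^ 2 * s ≤ t ^ 3 := by nlinarith [sq_nonneg t]
    have e2 : t * s ^ 2 ≤ t ^ 3 := by
      have : s ^ 2 ≤ t ^ 2 := by gcongr
      nlinarith
    have e3 : s ^ 3 ≤ t ^ 3 := by gcongr
    have e4 : t ^ 3 + t ^ 2 * s + t * s ^ 2 + s ^ 3 ≤ 4 * t ^ 3 := by linarith
    calc (t ^ 3 + t ^ 2 * s + t * s ^ 2 + s ^ 3) * s ^ 5 ≤ (4 * t ^ 3) * s ^ 5 := by gcongr
      _ = 4 * (s ^ 4 * (t ^ 3 * s)) := by ring
      _ ≤ 4 * (s ^ 4 * (t ^ 3 * t)) := by gcongr
      _ = 4 * (s ^ 4 * t ^ 4) := by ring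
  rw [h2]
  have h4 : 0 ≤ 1 / t ^ 5 := by positivity
  calc (t - s) * ((t ^ 3 + t ^ 2 * s + t * s ^ 2 + s ^ 3) / (s ^ 4 * t ^ 4))
      ≤ (t - s) * (4 * (1 / s ^ 5)) := by gcongr
    _ ≤ (t - s) * (4 * (1 / s ^ 5 + 1 / t ^ 5)) := by
        gcongr
        linarith
    _ = _ := by ring

lemma kernel_diff {a b y : E} (ha : y ≠ a) (hb : y ≠ b) :
    |(‖a - y‖ ^ 4)⁻¹ - (‖b - y‖ ^ 4)⁻¹| ≤
      4 * ‖a - b‖ / ‖a - y‖ ^ 5 + 4 * ‖a - b‖ / ‖b - y‖ ^ 5 := by
  have h1 : 0 < ‖a - y‖ := norm_pos_iff.2 (sub_ne_zero.2 ha.symm)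
  have h2 : 0 < ‖b - y‖ := norm_pos_iff.2 (sub_ne_zero.2 hb.symm)
  have h3 : |‖a - y‖ - ‖b - y‖| ≤ ‖a - b‖ := by
    have := abs_norm_sub_norm_le (a - y) (b - y)
    rwa [sub_sub_sub_cancel_right] at this
  refine (inv_diff h1 h2).trans ?_
  calc 4 * |‖a - y‖ - ‖b - y‖| * (1 / ‖a - y‖ ^ 5 + 1 / ‖b - y‖ ^ 5)
      ≤ 4 * ‖a - b‖ * (1 / ‖a - y‖ ^ 5 + 1 / ‖b - y‖ ^ 5) := by gcongr
    _ = _ := by ring

/-- the sum of the bubbles and their squares -/
noncomputable def M (k : ℕ) (mu : ℕ → ℝ) (z : ℕ → E) (y : E) : ℝ :=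
  ∑ l ∈ Finset.range k, (U (mu l) (z l) y + U (mu l) (z l) y ^ 2)

lemma M_nonneg (k : ℕ) (mu : ℕ → ℝ) (z : ℕ → E) (y : E) : 0 ≤ M k mu z y :=
  Finset.sum_nonneg fun l _ => add_nonneg (UINT_U_nonneg _ _ _) (sq_nonneg _)

lemma nl_le (k : ℕ) (Λ C3 lam s : ℝ) (mu : ℕ → ℝ) (z : ℕ → E) (y : E) (hlam : 0 ≤ lam)
    (hL : lam ≤ Λ) (hC3 : 0 ≤ C3)
    (hs : |s| ≤ C3 * (1 + ∑ l ∈ Finset.range k, U (mu l) (z l) y)) :
    |nl lam s| ≤ (Λ * C3 + 2 * (k + 1) * C3 ^ 2) * (1 + M k mu z y) := by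
  set S := ∑ l ∈ Finset.range k, U (mu l) (z l) y with hS
  have hS0 : 0 ≤ S := Finset.sum_nonneg fun l _ => UINT_U_nonneg _ _ _
  have hSM : S ≤ M k mu z y := by
    unfold M
    rw [hS]
    exact Finset.sum_le_sum fun _ _ => le_add_of_nonneg_right (sq_nonneg _)
  have hS2 : S ^ 2 ≤ k * M k mu z y := by
    have h1 := sq_sum_le_card_mul_sum_sq (s := Finset.range k) (f := fun l => U (mu l) (z l) y)
    rw [Finset.card_range] at h1
    refine h1.trans ?_
    refine mul_le_mul_of_nonneg_left ?_ (Nat.cast_nonneg k)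
    unfold M
    exact Finset.sum_le_sum fun l _ => le_add_of_nonneg_left (UINT_U_nonneg _ _ _)
  have hM := M_nonneg k mu z y
  have hk : (0 : ℝ) ≤ k := Nat.cast_nonneg k
  have h1 : |nl lam s| ≤ Λ * |s| + |s| ^ 2 := by
    unfold nl
    refine (abs_add_le _ _).trans ?_
    rw [abs_mul, abs_mul, abs_abs, abs_of_nonneg hlam, sq]
    gcongr
  have h2 : |s| ≤ C3 * (1 + M k mu z y) := hs.trans (by gcongr)
  have h3 : |s| ^ 2 ≤ 2 * (k + 1) * C3 ^ 2 * (1 + M k mu z y) := by
    have h4 : (1 + S) ^ 2 ≤ 2 * (k + 1) * (1 + M k mu z y) := by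
      nlinarith [sq_nonneg (1 - S)]
    calc |s| ^ 2 ≤ (C3 * (1 + S)) ^ 2 := by gcongr
      _ = C3 ^ 2 * (1 + S) ^ 2 := by ring
      _ ≤ C3 ^ 2 * (2 * (k + 1) * (1 + M k mu z y)) := by gcongr
      _ = _ := by ring
  have h4 : Λ * |s| ≤ Λ * C3 * (1 + M k mu z y) := by
    have : 0 ≤ Λ := hlam.trans hL
    calc Λ * |s| ≤ Λ * (C3 * (1 + M k mu z y)) := by gcongr
      _ = _ := by ring
  calc |nl lam s| ≤ Λ * |s| + |s| ^ 2 := h1
    _ ≤ Λ * C3 * (1 + M k mu z y) + 2 * (k + 1) * C3 ^ 2 * (1 + M k mu z y) := add_le_add h4 h3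
    _ = _ := by ring

/-- the pointwise majorant -/
noncomputable def maj (p a b : E) (R ρa ρb : ℝ) (k : ℕ) (mu : ℕ → ℝ) (z : ℕ → E) (y : E) : ℝ :=
  (((closedBall p R).indicator (fun _ => 4 * ‖a - b‖) y / ‖a - y‖ ^ 5 +
    (closedBall p R).indicator (fun _ => 4 * ‖a - b‖) y / ‖b - y‖ ^ 5) +
  ((closedBall a (2 * ρa)).indicator (fun _ => (1 : ℝ)) y / ‖a - y‖ ^ 4 +
    (closedBall b (2 * ρb)).indicator (fun _ => (1 : ℝ)) y / ‖b - y‖ ^ 4)) +
  (((ball a ρa)ᶜ).indicator (M k mu z) y / ‖a - y‖ ^ 4 +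
    ((ball b ρb)ᶜ).indicator (M k mu z) y / ‖b - y‖ ^ 4)

lemma pointwise {p a b : E} {R ρa ρb C4 : ℝ} {k : ℕ} {mu : ℕ → ℝ} {z : ℕ → E} {u : E → ℝ}
    {lam : ℝ} (hR : 0 < R) (hρa : 0 < ρa) (hρb : 0 < ρb) (ha : ‖a - p‖ + 2 * ρa ≤ R / 2)
    (hb : ‖b - p‖ + 2 * ρb ≤ R / 2) (hC4 : 0 ≤ C4)
    (hn : ∀ y ∈ closedBall p R, |nl lam (u y)| ≤ C4 * (1 + M k mu z y)) {y : E} (hya : y ≠ a)
    (hyb : y ≠ b) :
    |Gam (a - y) * ((chi p (R / 2) y - chi a ρa y) * nl lam (u y)) -
      Gam (b - y) * ((chi p (R / 2) y - chi b ρb y) * nl lam (u y))| ≤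
      cG * C4 * maj p a b R ρa ρb k mu z y := by
  have hcG := cG_pos
  set α := (‖a - y‖ ^ 4)⁻¹ with hα
  set β := (‖b - y‖ ^ 4)⁻¹ with hβ
  have hα0 : 0 ≤ α := by positivity
  have hβ0 : 0 ≤ β := by positivity
  set X := chi p (R / 2) y with hX
  set XA := chi a ρa y with hXA
  set XB := chi b ρb y with hXB
  have hX0 : 0 ≤ X := chi_nonneg _ _ _
  have hX1 : X ≤ 1 := chi_le_one _ _ _
  have hXA0 : 0 ≤ XA := chi_nonneg _ _ _
  have hXA1 : XA ≤ 1 := chi_le_one _ _ _
  have hXB0 : 0 ≤ XB := chi_nonneg _ _ _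
  have hXB1 : XB ≤ 1 := chi_le_one _ _ _
  have hMy := M_nonneg k mu z y
  -- the indicator terms
  set i1 : ℝ := (closedBall a (2 * ρa)).indicator (fun _ => (1 : ℝ)) y with hi1
  set i2 : ℝ := (closedBall b (2 * ρb)).indicator (fun _ => (1 : ℝ)) y with hi2
  have hi10 : 0 ≤ i1 := indicator_nonneg (fun _ _ => zero_le_one) _
  have hi20 : 0 ≤ i2 := indicator_nonneg (fun _ _ => zero_le_one) _
  set m1 : ℝ := ((ball a ρa)ᶜ).indicator (M k mu z) y with hm1
  set m2 : ℝ := ((ball b ρb)ᶜ).indicator (M k mu z) y with hm2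
  have hm10 : 0 ≤ m1 := indicator_nonneg (fun _ _ => M_nonneg _ _ _ _) _
  have hm20 : 0 ≤ m2 := indicator_nonneg (fun _ _ => M_nonneg _ _ _ _) _
  set d : ℝ := (closedBall p R).indicator (fun _ => 4 * ‖a - b‖) y with hd
  have hd0 : 0 ≤ d := indicator_nonneg (fun _ _ => by positivity) _
  have hmaj : maj p a b R ρa ρb k mu z y = (d / ‖a - y‖ ^ 5 + d / ‖b - y‖ ^ 5) +
      (i1 * α + i2 * β) + (m1 * α + m2 * β) := by
    simp only [maj, ← hi1, ← hi2, ← hm1, ← hm2, ← hd, hα, hβ, div_eq_mul_inv]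
  have hmaj0 : 0 ≤ maj p a b R ρa ρb k mu z y := by
    rw [hmaj]
    positivity
  have hLHS : Gam (a - y) * ((X - XA) * nl lam (u y)) - Gam (b - y) * ((X - XB) * nl lam (u y)) =
      cG * ((α * (X - XA) - β * (X - XB)) * nl lam (u y)) := by
    unfold Gam
    ring
  rw [hLHS, abs_mul, abs_of_pos hcG, mul_assoc]
  refine mul_le_mul_of_nonneg_left ?_ hcG.le
  by_cases hyB : y ∈ ball p R
  · have hyB' : y ∈ closedBall p R := ball_subset_closedBall hyB
    have hn' := hn y hyB'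
    -- first bound
    have hXAi : XA ≤ i1 := by
      by_cases h : y ∈ closedBall a (2 * ρa)
      · rw [hi1, indicator_of_mem h]; exact hXA1
      · rw [hi1, indicator_of_notMem h]
        rw [mem_closedBall, not_le, dist_eq_norm] at h
        rw [hXA, chi_eq_zero hρa h.le]
    have hXBi : XB ≤ i2 := by
      by_cases h : y ∈ closedBall b (2 * ρb)
      · rw [hi2, indicator_of_mem h]; exact hXB1
      · rw [hi2, indicator_of_notMem h]
        rw [mem_closedBall, not_le, dist_eq_norm] at h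
        rw [hXB, chi_eq_zero hρb h.le]
    have hdd : |α - β| ≤ d / ‖a - y‖ ^ 5 + d / ‖b - y‖ ^ 5 := by
      rw [hd, indicator_of_mem hyB']
      exact kernel_diff hya hyb
    have hfirst : |α * (X - XA) - β * (X - XB)| ≤
        (d / ‖a - y‖ ^ 5 + d / ‖b - y‖ ^ 5) + (i1 * α + i2 * β) := by
      have e1 : α * (X - XA) - β * (X - XB) = (α - β) * X + (XB * β - XA * α) := by ring
      rw [e1]
      refine (abs_add_le _ _).trans (add_le_add ?_ ?_)
      · rw [abs_mul, abs_of_nonneg hX0]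
        calc |α - β| * X ≤ |α - β| * 1 := by gcongr
          _ ≤ _ := by rw [mul_one]; exact hdd
      · refine (abs_sub _ _).trans ?_
        rw [abs_of_nonneg (by positivity), abs_of_nonneg (by positivity), add_comm]
        gcongr
    -- second bound
    have hsecA : |X - XA| * M k mu z y ≤ m1 := by
      by_cases h : y ∈ (ball a ρa)ᶜ
      · rw [hm1, indicator_of_mem h]
        have : |X - XA| ≤ 1 := by rw [abs_le]; constructor <;> linarith
        nlinarith
      · rw [hm1, indicator_of_notMem h]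
        rw [mem_compl_iff, not_not, mem_ball, dist_eq_norm] at h
        have h1 : XA = 1 := chi_eq_one hρa h.le
        have h2 : X = 1 := by
          refine chi_eq_one (by linarith) ?_
          have h3 : y - p = (y - a) + (a - p) := by abel
          rw [h3]
          exact (norm_add_le _ _).trans (by linarith)
        rw [h1, h2]
        simp
    have hsecB : |X - XB| * M k mu z y ≤ m2 := by
      by_cases h : y ∈ (ball b ρb)ᶜ
      · rw [hm2, indicator_of_mem h]
        have : |X - XB| ≤ 1 := by rw [abs_le]; constructor <;> linarith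
        nlinarith
      · rw [hm2, indicator_of_notMem h]
        rw [mem_compl_iff, not_not, mem_ball, dist_eq_norm] at h
        have h1 : XB = 1 := chi_eq_one hρb h.le
        have h2 : X = 1 := by
          refine chi_eq_one (by linarith) ?_
          have h3 : y - p = (y - b) + (b - p) := by abel
          rw [h3]
          exact (norm_add_le _ _).trans (by linarith)
        rw [h1, h2]
        simp
    have hsecond : |α * (X - XA) - β * (X - XB)| * M k mu z y ≤ m1 * α + m2 * β := by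
      calc |α * (X - XA) - β * (X - XB)| * M k mu z y
          ≤ (|α * (X - XA)| + |β * (X - XB)|) * M k mu z y := by
            gcongr
            exact abs_sub _ _
        _ = α * (|X - XA| * M k mu z y) + β * (|X - XB| * M k mu z y) := by
            rw [abs_mul, abs_mul, abs_of_nonneg hα0, abs_of_nonneg hβ0]
            ring
        _ ≤ α * m1 + β * m2 := by gcongr
        _ = _ := by ring
    rw [abs_mul, hmaj]
    calc |α * (X - XA) - β * (X - XB)| * |nl lam (u y)|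
        ≤ |α * (X - XA) - β * (X - XB)| * (C4 * (1 + M k mu z y)) := by gcongr
      _ = C4 * (|α * (X - XA) - β * (X - XB)| +
          |α * (X - XA) - β * (X - XB)| * M k mu z y) := by ring
      _ ≤ C4 * (((d / ‖a - y‖ ^ 5 + d / ‖b - y‖ ^ 5) + (i1 * α + i2 * β)) +
          (m1 * α + m2 * β)) := by gcongr
      _ = _ := by ring
  · rw [mem_ball, not_lt, dist_eq_norm] at hyB
    have h1 : X = 0 := chi_eq_zero (by linarith) (by linarith)
    have h2 : XA = 0 := by
      refine chi_eq_zero hρa ?_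
      have h3 : y - p = (y - a) + (a - p) := by abel
      rw [h3] at hyB
      have := hyB.trans (norm_add_le _ _)
      linarith
    have h3 : XB = 0 := by
      refine chi_eq_zero hρb ?_
      have h3 : y - p = (y - b) + (b - p) := by abel
      rw [h3] at hyB
      have := hyB.trans (norm_add_le _ _)
      linarith
    rw [h1, h2, h3]
    simp only [sub_zero, mul_zero, zero_mul, abs_zero]
    positivity

lemma lint_add_le (f g : E → ℝ) (hg : Measurable g) :
    ∫⁻ y, ENNReal.ofReal (f y + g y) ≤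
      (∫⁻ y, ENNReal.ofReal (f y)) + ∫⁻ y, ENNReal.ofReal (g y) := by
  rw [← lintegral_add_right _ hg.ennreal_ofReal]
  exact lintegral_mono fun y => ENNReal.ofReal_add_le

lemma measurable_M (k : ℕ) (mu : ℕ → ℝ) (z : ℕ → E) (hmu : ∀ l < k, 0 < mu l) :
    Measurable (M k mu z) := by
  unfold M
  refine Finset.measurable_fun_sum _ fun l hl => ?_
  have := (UINT_continuous_U (hmu l (Finset.mem_range.1 hl)) (z l)).measurable
  exact this.add (this.pow_const 2)

lemma lint_maj (p a b : E) (R ρa ρb : ℝ) (k : ℕ) (mu : ℕ → ℝ) (z : ℕ → E)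
    (hmu : ∀ l < k, 0 < mu l) :
    ∫⁻ y, ENNReal.ofReal (maj p a b R ρa ρb k mu z y) ≤
      ((J 5 ((closedBall p R).indicator (fun _ => 4 * ‖a - b‖)) a +
        J 5 ((closedBall p R).indicator (fun _ => 4 * ‖a - b‖)) b) +
      (J 4 ((closedBall a (2 * ρa)).indicator (fun _ => (1 : ℝ))) a +
        J 4 ((closedBall b (2 * ρb)).indicator (fun _ => (1 : ℝ))) b)) +
      (J 4 (((ball a ρa)ᶜ).indicator (M k mu z)) a +
        J 4 (((ball b ρb)ᶜ).indicator (M k mu z)) b) := by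
  have hn : ∀ (x : E) (m : ℕ), Measurable fun y : E => ‖x - y‖ ^ m := fun x m => by fun_prop
  have h1 : ∀ (s : Set E) (hs : MeasurableSet s) (c : ℝ) (x : E) (m : ℕ),
      Measurable fun y => s.indicator (fun _ => c) y / ‖x - y‖ ^ m := fun s hs c x m =>
    (measurable_const.indicator hs).div (hn x m)
  have h2 : ∀ (s : Set E) (hs : MeasurableSet s) (x : E) (m : ℕ),
      Measurable fun y => s.indicator (M k mu z) y / ‖x - y‖ ^ m := fun s hs x m =>
    ((measurable_M k mu z hmu).indicator hs).div (hn x m)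
  unfold maj
  refine (lint_add_le _ _ ?_).trans (add_le_add ((lint_add_le _ _ ?_).trans
    (add_le_add (lint_add_le _ _ ?_) (lint_add_le _ _ ?_))) (lint_add_le _ _ ?_))
  · exact (h2 _ measurableSet_ball.compl a 4).add (h2 _ measurableSet_ball.compl b 4)
  · exact (h1 _ measurableSet_closedBall 1 a 4).add (h1 _ measurableSet_closedBall 1 b 4)
  · exact h1 _ measurableSet_closedBall _ b 5
  · exact h1 _ measurableSet_closedBall _ b 4
  · exact h2 _ measurableSet_ball.compl b 4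

/-- sums of potentials of the bubbles -/
lemma J_M_le {k : ℕ} {mu : ℕ → ℝ} {z : ℕ → E} (hmu : ∀ l < k, 0 < mu l) {S : Set E}
    (hS : MeasurableSet S) {x : E} {K : ℝ} (hK : 0 ≤ K)
    (h1 : ∀ l < k, J 4 (S.indicator (U (mu l) (z l))) x ≤ ENNReal.ofReal K)
    (h2 : ∀ l < k, J 4 (S.indicator (fun y => U (mu l) (z l) y ^ 2)) x ≤ ENNReal.ofReal K) :
    J 4 (S.indicator (M k mu z)) x ≤ ENNReal.ofReal (2 * k * K) := by
  have hm : ∀ l < k, Measurable (U (mu l) (z l)) := fun l hl =>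
    (UINT_continuous_U (hmu l hl) (z l)).measurable
  have e1 : S.indicator (M k mu z) = fun y => ∑ l ∈ Finset.range k,
      (S.indicator (U (mu l) (z l)) y + S.indicator (fun y => U (mu l) (z l) y ^ 2) y) := by
    funext y
    by_cases hy : y ∈ S
    · simp only [indicator_of_mem hy]
      rfl
    · simp [indicator_of_notMem hy]
  rw [e1]
  refine (OUT.J_sum_le _ _ (fun l hl => ?_) x).trans ?_
  · have := hm l (Finset.mem_range.1 hl)
    exact (this.indicator hS).add ((this.pow_const 2).indicator hS)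
  calc ∑ l ∈ Finset.range k, J 4 (fun y => S.indicator (U (mu l) (z l)) y +
        S.indicator (fun y => U (mu l) (z l) y ^ 2) y) x
      ≤ ∑ l ∈ Finset.range k, ENNReal.ofReal (2 * K) := by
        refine Finset.sum_le_sum fun l hl => ?_
        have hl' := Finset.mem_range.1 hl
        refine (J_add_le _ _ (((hm l hl').pow_const 2).indicator hS) x).trans ?_
        refine (add_le_add (h1 l hl') (h2 l hl')).trans ?_
        rw [← ENNReal.ofReal_add hK hK]
        exact ENNReal.ofReal_le_ofReal (by linarith)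
    _ = ENNReal.ofReal (2 * k * K) := by
        rw [← ENNReal.ofReal_sum_of_nonneg (fun _ _ => by positivity)]
        congr 1
        simp
        ring

end FE01

/-- comparison of the two outer fields -/
theorem fe01 : ∀ (k : ℕ) (Λ R C3 : ℝ), ∃ C : ℝ, 0 < C ∧ ∀ τ : ℝ, 0 < τ → τ ≤ 1 / 64 →
    ∃ ω0 : ℝ, 0 < ω0 ∧ ∀ (ω : ℝ) (p : E) (u : E → ℝ) (lam : ℝ) (mu : ℕ → ℝ) (z : ℕ → E)
      (sg : ℕ → ℝ) (ρ1 ρ0 : ℝ), ω ≤ ω0 → Conf k Λ R C3 τ ω p u lam mu z sg →
      Rho1 k τ mu z ρ1 → Rho0 k mu z ρ0 →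
      |N (fun y => (chi p (R / 2) y - chi (z 1) ρ1 y) * nl lam (u y)) (z 1)
        - N (fun y => (chi p (R / 2) y - chi (z 0) ρ0 y) * nl lam (u y)) (z 0)|
        ≤ C * (τ + tt mu z + (mu 0 / DD mu z) ^ 2) := by
  intro k Λ R C3
  rcases le_or_gt R 0 with hR | hR
  · exact ⟨1, one_pos, fun τ _ _ => ⟨1, one_pos, fun ω p u lam mu z sg ρ1 ρ0 _ hconf _ _ =>
      absurd hconf.hR.1 (not_lt.2 hR)⟩⟩
  obtain ⟨C1, hC1, hJU⟩ := J_U
  obtain ⟨C2, hC2, hJU2⟩ := J_U_sq
  obtain ⟨CB, hCB, hJB⟩ := J_ball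
  obtain ⟨CO, hCO, hout⟩ := OUT.outside
  have hcG := cG_pos
  set K : ℝ := 32 ^ (6 * k) with hK
  have hK1 : 1 ≤ K := one_le_pow₀ (by norm_num)
  set CU : ℝ := C1 + C2 + CO * K with hCU
  have hCU0 : 0 < CU := by positivity
  set C4 : ℝ := |Λ| * |C3| + 2 * (k + 1) * C3 ^ 2 with hC4
  have hC40 : 0 ≤ C4 := by positivity
  refine ⟨cG * C4 * (24 * CB + 4 * k * CU) + 1, by positivity, ?_⟩
  intro τ hτ hτ'
  refine ⟨(R / 64) ^ 2, by positivity, ?_⟩
  intro ω p u lam mu z sg ρ1 ρ0 hω hconf hr1 hr0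
  have hω0 := hconf.hω.1
  have hωτ := hconf.hω.2
  have hωR := hconf.hωR
  have hR1 := hconf.hR.2
  have hk := hconf.hk
  have hmu := hconf.hmu
  have hm0 := hmu 0 (by omega)
  have hm1 := hmu 1 (by omega)
  have hmu0 := hconf.hmu0
  have hz0 := hconf.hz 0 (by omega)
  have hz1 := hconf.hz 1 (by omega)
  have hu := hconf.hu
  -- distances
  have hd : ‖z 1 - z 0‖ ≤ 2 * ω := by
    have : z 1 - z 0 = (z 1 - p) - (z 0 - p) := by abel
    rw [this]
    exact (norm_sub_le _ _).trans (by linarith)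
  have hD0 : 0 < DD mu z := by
    unfold DD
    exact Real.sqrt_pos.2 (by positivity)
  have hDsq : DD mu z ^ 2 = mu 0 ^ 2 + ‖z 0 - z 1‖ ^ 2 := by
    unfold DD
    exact Real.sq_sqrt (by positivity)
  have hDle : DD mu z ≤ 3 * ω := by
    have h1 : ‖z 0 - z 1‖ ≤ 2 * ω := by rw [norm_sub_rev]; exact hd
    have h2 : DD mu z ^ 2 ≤ (3 * ω) ^ 2 := by
      rw [hDsq]
      have h3 : ‖z 0 - z 1‖ ^ 2 ≤ (2 * ω) ^ 2 := by gcongr
      have h4 : mu 0 ^ 2 ≤ ω ^ 2 := by gcongr
      nlinarith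
    exact le_of_sq_le_sq h2 (by positivity)
  have hρ1 := hr1.pos
  have hρ0 := hr0.pos
  have hρ1τ : ρ1 ≤ τ * (3 * ω) := hr1.le.trans (by gcongr)
  have hρ1s : ρ1 ≤ ω := by nlinarith
  have hρ0s : ρ0 ≤ R / 64 := by
    have h1 : ρ0 ^ 2 ≤ (R / 64) ^ 2 := hr0.le.trans (hmu0.trans hω)
    exact le_of_sq_le_sq h1 (by positivity)
  have ht0 : 0 ≤ tt mu z := UINT_U_nonneg _ _ _
  set X : ℝ := τ + tt mu z + (mu 0 / DD mu z) ^ 2 with hX
  have hXτ : τ ≤ X := by
    have : 0 ≤ (mu 0 / DD mu z) ^ 2 := sq_nonneg _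
    linarith
  have hX0 : 0 < X := lt_of_lt_of_le hτ hXτ
  have hXt : tt mu z ≤ X := by
    have : 0 ≤ (mu 0 / DD mu z) ^ 2 := sq_nonneg _
    linarith
  have hXD : (mu 0 / DD mu z) ^ 2 ≤ X := by linarith
  have hXτt : τ * (1 + tt mu z) ≤ X := by nlinarith [sq_nonneg (mu 0 / DD mu z)]
  -- the bound for nl
  have hn : ∀ y ∈ closedBall p R, |nl lam (u y)| ≤ C4 * (1 + FE01.M k mu z y) := by
    intro y hy
    have hC3 : 0 ≤ C3 := by linarith [hconf.hC3]
    have h1 := FE01.nl_le k Λ C3 lam (u y) mu z y hconf.hlam.1 hconf.hlam.2 hC3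
      (hconf.hstar y hy)
    have hΛ : 0 ≤ Λ := hconf.hlam.1.trans hconf.hlam.2
    rw [hC4, abs_of_nonneg hΛ, abs_of_nonneg hC3]
    exact h1
  -- integrability
  have hnl := contDiff_nl lam u hu
  have hcont : ∀ (c : E) (ρ : ℝ), Continuous fun y => (chi p (R / 2) y - chi c ρ y) *
      nl lam (u y) := fun c ρ =>
    ((contDiff_chi p (R / 2) (n := 0)).continuous.sub
      (contDiff_chi c ρ (n := 0)).continuous).mul hnl.continuous
  have hcs : ∀ (c : E) (ρ : ℝ), 0 < ρ → HasCompactSupport fun y =>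
      (chi p (R / 2) y - chi c ρ y) * nl lam (u y) := fun c ρ hρ =>
    ((hasCompactSupport_chi p (by linarith : 0 < R / 2)).sub
      (hasCompactSupport_chi c hρ)).mul_right
  have hint1 := KER.integrable_kernel_mul KER.locallyIntegrable_Gam (z 1)
    (hcont (z 1) ρ1) (hcs (z 1) ρ1 hρ1)
  have hint0 := KER.integrable_kernel_mul KER.locallyIntegrable_Gam (z 0)
    (hcont (z 0) ρ0) (hcs (z 0) ρ0 hρ0)
  unfold N
  rw [← integral_sub hint1 hint0, ← Real.norm_eq_abs]
  refine (norm_integral_le_lintegral_norm _).trans ?_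
  refine ENNReal.toReal_le_of_le_ofReal (by positivity) ?_
  -- the pointwise bound
  have hpt : ∫⁻ y, ENNReal.ofReal ‖Gam (z 1 - y) * ((chi p (R / 2) y - chi (z 1) ρ1 y) *
      nl lam (u y)) - Gam (z 0 - y) * ((chi p (R / 2) y - chi (z 0) ρ0 y) * nl lam (u y))‖ ≤
      ∫⁻ y, ENNReal.ofReal (cG * C4) * ENNReal.ofReal
        (FE01.maj p (z 1) (z 0) R ρ1 ρ0 k mu z y) := by
    refine lintegral_mono_ae ?_
    filter_upwards [KER.ae_ne (z 1), KER.ae_ne (z 0)] with y hy1 hy0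
    rw [← ENNReal.ofReal_mul (by positivity), Real.norm_eq_abs]
    refine ENNReal.ofReal_le_ofReal ?_
    exact FE01.pointwise hR hρ1 hρ0 (by linarith) (by linarith) hC40 hn hy1 hy0
  refine hpt.trans ?_
  rw [lintegral_const_mul' _ _ ENNReal.ofReal_ne_top]
  have hbound : ∫⁻ y, ENNReal.ofReal (FE01.maj p (z 1) (z 0) R ρ1 ρ0 k mu z y) ≤
      ENNReal.ofReal ((24 * CB + 4 * k * CU) * X) := by
    refine (FE01.lint_maj p (z 1) (z 0) R ρ1 ρ0 k mu z hmu).trans ?_
    have a1 : ∀ x, J 5 ((closedBall p R).indicator (fun _ => 4 * ‖z 1 - z 0‖)) x ≤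
        ENNReal.ofReal (8 * CB * X) := by
      intro x
      refine (hJB 5 x p R (4 * ‖z 1 - z 0‖) (Or.inr rfl) hR (by positivity)).trans
        (ENNReal.ofReal_le_ofReal ?_)
      calc CB * (4 * ‖z 1 - z 0‖) * R ^ (6 - 5) ≤ CB * (4 * (2 * τ)) * 1 := by
            gcongr
            · linarith
            · simpa using hR1
        _ = 8 * CB * τ := by ring
        _ ≤ _ := by gcongr
    have a2 : J 4 ((closedBall (z 1) (2 * ρ1)).indicator (fun _ => (1 : ℝ))) (z 1) ≤
        ENNReal.ofReal (4 * CB * X) := by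
      refine (hJB 4 (z 1) (z 1) (2 * ρ1) 1 (Or.inl rfl) (by positivity) zero_le_one).trans
        (ENNReal.ofReal_le_ofReal ?_)
      have h1 : ρ1 ^ 2 ≤ τ := by nlinarith
      calc CB * 1 * (2 * ρ1) ^ (6 - 4) = 4 * CB * ρ1 ^ 2 := by norm_num; ring
        _ ≤ 4 * CB * τ := by gcongr
        _ ≤ _ := by gcongr
    have a3 : J 4 ((closedBall (z 0) (2 * ρ0)).indicator (fun _ => (1 : ℝ))) (z 0) ≤
        ENNReal.ofReal (4 * CB * X) := by
      refine (hJB 4 (z 0) (z 0) (2 * ρ0) 1 (Or.inl rfl) (by positivity) zero_le_one).trans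
        (ENNReal.ofReal_le_ofReal ?_)
      have h1 : ρ0 ^ 2 ≤ τ := hr0.le.trans (hmu0.trans hωτ)
      calc CB * 1 * (2 * ρ0) ^ (6 - 4) = 4 * CB * ρ0 ^ 2 := by norm_num; ring
        _ ≤ 4 * CB * τ := by gcongr
        _ ≤ _ := by gcongr
    -- the bubbles seen from the second centre
    have hmul : ∀ l, 1 ≤ l → l < k → mu l ≤ mu 1 := by
      intro l hl hlk
      rcases Nat.eq_or_lt_of_le hl with h | h
      · rw [← h]
      · have := hconf.hsep 1 l h hlk
        have : ω * mu 1 ≤ 1 * mu 1 := by gcongr; linarith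
        linarith
    have b1 : ∀ l < k, J 4 (((ball (z 1) ρ1)ᶜ).indicator (U (mu l) (z l))) (z 1) ≤
        ENNReal.ofReal (CU * X) ∧
        J 4 (((ball (z 1) ρ1)ᶜ).indicator (fun y => U (mu l) (z l) y ^ 2)) (z 1) ≤
        ENNReal.ofReal (CU * X) := by
      intro l hl
      have hml := hmu l hl
      have hle1 : ∀ y, ((ball (z 1) ρ1)ᶜ).indicator (U (mu l) (z l)) y ≤ U (mu l) (z l) y :=
        fun y => indicator_le_self' (fun _ _ => UINT_U_nonneg _ _ _) y
      have hle2 : ∀ y, ((ball (z 1) ρ1)ᶜ).indicator (fun y => U (mu l) (z l) y ^ 2) y ≤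
          U (mu l) (z l) y ^ 2 :=
        fun y => indicator_le_self' (fun _ _ => sq_nonneg _) y
      rcases Nat.eq_zero_or_pos l with h0 | h0
      · subst h0
        constructor
        · refine OUT.J_le_of_le hle1 (hJU (mu 0) (z 0) (z 1) hm0).1 ?_
          have hA : A (mu 0) (z 0) (z 1) = DD mu z ^ 2 := by
            rw [hDsq]; unfold A; rw [norm_sub_rev]
          rw [hA]
          calc C1 * mu 0 ^ 2 / DD mu z ^ 2 = C1 * (mu 0 / DD mu z) ^ 2 := by
                rw [div_pow]; ring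
            _ ≤ C1 * X := by gcongr
            _ ≤ CU * X := by
                gcongr
                have : 0 ≤ CO * K := by positivity
                linarith
        · refine OUT.J_le_of_le hle2 (hJU2 (mu 0) (z 0) (z 1) hm0).1 ?_
          calc C2 * U (mu 0) (z 0) (z 1) ≤ C2 * X := by
                gcongr
                exact hXt
            _ ≤ CU * X := by
                gcongr
                have : 0 ≤ CO * K := by positivity
                linarith
      · have hmle := hmul l h0 hl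
        have ho := hout (mu l) ρ1 (z l) (z 1) (z 1) hml hρ1 (by simp; positivity)
        have hCOX : CO * X ≤ CU * X := by
          gcongr
          have : CO * 1 ≤ CO * K := by gcongr
          linarith
        have q5 : mu l ^ 2 / ρ1 ^ 2 ≤ X := by
          rw [div_le_iff₀ (by positivity)]
          calc mu l ^ 2 ≤ mu 1 ^ 2 := by gcongr
            _ ≤ τ ^ 2 * ρ1 ^ 2 := hr1.q5
            _ ≤ τ * ρ1 ^ 2 := by gcongr; nlinarith
            _ ≤ _ := by gcongr
        have hgap : ‖z l - z 1‖ ≤ ρ1 / 4 ∨ (2 ≤ l ∧ 8 * ρ1 ≤ ‖z l - z 1‖) := by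
          rcases Nat.eq_or_lt_of_le h0 with h | h
          · left
            rw [← h]
            simp
            positivity
          · rcases hr1.gap l h hl with h' | h'
            · exact Or.inl h'
            · exact Or.inr ⟨h, h'⟩
        rcases hgap with h | ⟨h2, h⟩
        · obtain ⟨o1, _, o3, _⟩ := ho.1 h
          constructor
          · refine o1.trans (ENNReal.ofReal_le_ofReal ?_)
            calc CO * mu l ^ 2 / ρ1 ^ 2 = CO * (mu l ^ 2 / ρ1 ^ 2) := by ring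
              _ ≤ CO * X := by gcongr
              _ ≤ _ := hCOX
          · refine o3.trans (ENNReal.ofReal_le_ofReal ?_)
            have q1 : mu l ^ 4 / ρ1 ^ 6 ≤ X := by
              rw [div_le_iff₀ (by positivity)]
              calc mu l ^ 4 ≤ mu 1 ^ 4 := by gcongr
                _ ≤ τ * (1 + tt mu z) * ρ1 ^ 6 := hr1.q1
                _ ≤ _ := by gcongr
            calc CO * mu l ^ 4 / ρ1 ^ 6 = CO * (mu l ^ 4 / ρ1 ^ 6) := by ring
              _ ≤ CO * X := by gcongr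
              _ ≤ _ := hCOX
        · obtain ⟨o1, _, o3, _⟩ := ho.2 h
          constructor
          · refine OUT.J_le_of_le hle1 o1 ?_
            calc CO * mu l ^ 2 / ρ1 ^ 2 = CO * (mu l ^ 2 / ρ1 ^ 2) := by ring
              _ ≤ CO * X := by gcongr
              _ ≤ _ := hCOX
          · refine OUT.J_le_of_le hle2 o3 ?_
            have q3 : mu l ^ 2 / ρ1 ^ 4 ≤ X := by
              rw [div_le_iff₀ (by positivity)]
              calc mu l ^ 2 ≤ τ * (1 + tt mu z) * ρ1 ^ 4 := hr1.q3 l h2 hl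
                _ ≤ _ := by gcongr
            calc CO * mu l ^ 2 / ρ1 ^ 4 = CO * (mu l ^ 2 / ρ1 ^ 4) := by ring
              _ ≤ CO * X := by gcongr
              _ ≤ _ := hCOX
    -- the bubbles seen from the first centre
    have hκ : mu 0 / ρ0 ^ 2 ≤ 32 ^ (2 * k) := by
      rw [div_le_iff₀ (by positivity)]
      exact hr0.ge
    have hκ0 : 0 ≤ mu 0 / ρ0 ^ 2 := by positivity
    have hK2 : (32 : ℝ) ^ (2 * k) ≤ K := pow_le_pow_right₀ (by norm_num) (by omega)
    have hK4 : ((32 : ℝ) ^ (2 * k)) ^ 2 ≤ K := by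
      rw [← pow_mul]
      exact pow_le_pow_right₀ (by norm_num) (by omega)
    have hK6 : ((32 : ℝ) ^ (2 * k)) ^ 3 ≤ K := by
      rw [← pow_mul]
      exact pow_le_pow_right₀ (by norm_num) (by omega)
    have hmul0 : ∀ l < k, mu l ≤ mu 0 := by
      intro l hlk
      rcases Nat.eq_zero_or_pos l with h | h
      · rw [h]
      · have := hconf.hsep 0 l h hlk
        have : ω * mu 0 ≤ 1 * mu 0 := by gcongr; linarith
        linarith
    have hCOKX : CO * K * X ≤ CU * X := by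
      gcongr
      linarith
    have b0 : ∀ l < k, J 4 (((ball (z 0) ρ0)ᶜ).indicator (U (mu l) (z l))) (z 0) ≤
        ENNReal.ofReal (CU * X) ∧
        J 4 (((ball (z 0) ρ0)ᶜ).indicator (fun y => U (mu l) (z l) y ^ 2)) (z 0) ≤
        ENNReal.ofReal (CU * X) := by
      intro l hl
      have hml := hmu l hl
      have hmle := hmul0 l hl
      have hle1 : ∀ y, ((ball (z 0) ρ0)ᶜ).indicator (U (mu l) (z l)) y ≤ U (mu l) (z l) y :=
        fun y => indicator_le_self' (fun _ _ => UINT_U_nonneg _ _ _) y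
      have hle2 : ∀ y, ((ball (z 0) ρ0)ᶜ).indicator (fun y => U (mu l) (z l) y ^ 2) y ≤
          U (mu l) (z l) y ^ 2 :=
        fun y => indicator_le_self' (fun _ _ => sq_nonneg _) y
      have ho := hout (mu l) ρ0 (z l) (z 0) (z 0) hml hρ0 (by simp; positivity)
      have q5 : mu l ^ 2 / ρ0 ^ 2 ≤ K * X := by
        calc mu l ^ 2 / ρ0 ^ 2 ≤ mu 0 ^ 2 / ρ0 ^ 2 := by gcongr
          _ = (mu 0 / ρ0 ^ 2) * mu 0 := by ring
          _ ≤ 32 ^ (2 * k) * τ := by gcongr; linarith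
          _ ≤ K * X := by gcongr
      have hgap : ‖z l - z 0‖ ≤ ρ0 / 4 ∨ (1 ≤ l ∧ 8 * ρ0 ≤ ‖z l - z 0‖) := by
        rcases Nat.eq_zero_or_pos l with h | h
        · left
          rw [h]
          simp
          positivity
        · rcases hr0.gap l h hl with h' | h'
          · exact Or.inl h'
          · exact Or.inr ⟨h, h'⟩
      rcases hgap with h | ⟨h1, h⟩
      · obtain ⟨o1, _, o3, _⟩ := ho.1 h
        constructor
        · refine o1.trans (ENNReal.ofReal_le_ofReal ?_)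
          calc CO * mu l ^ 2 / ρ0 ^ 2 = CO * (mu l ^ 2 / ρ0 ^ 2) := by ring
            _ ≤ CO * (K * X) := by gcongr
            _ = CO * K * X := by ring
            _ ≤ _ := hCOKX
        · refine o3.trans (ENNReal.ofReal_le_ofReal ?_)
          have q1 : mu l ^ 4 / ρ0 ^ 6 ≤ K * X := by
            calc mu l ^ 4 / ρ0 ^ 6 ≤ mu 0 ^ 4 / ρ0 ^ 6 := by gcongr
              _ = (mu 0 / ρ0 ^ 2) ^ 3 * mu 0 := by field_simp
              _ ≤ (32 ^ (2 * k)) ^ 3 * τ := by gcongr; linarith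
              _ ≤ K * X := by gcongr
          calc CO * mu l ^ 4 / ρ0 ^ 6 = CO * (mu l ^ 4 / ρ0 ^ 6) := by ring
            _ ≤ CO * (K * X) := by gcongr
            _ = CO * K * X := by ring
            _ ≤ _ := hCOKX
      · obtain ⟨o1, _, o3, _⟩ := ho.2 h
        constructor
        · refine OUT.J_le_of_le hle1 o1 ?_
          calc CO * mu l ^ 2 / ρ0 ^ 2 = CO * (mu l ^ 2 / ρ0 ^ 2) := by ring
            _ ≤ CO * (K * X) := by gcongr
            _ = CO * K * X := by ring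
            _ ≤ _ := hCOKX
        · refine OUT.J_le_of_le hle2 o3 ?_
          have hsep := hconf.hsep 0 l (by omega) hl
          have q3 : mu l ^ 2 / ρ0 ^ 4 ≤ K * X := by
            calc mu l ^ 2 / ρ0 ^ 4 ≤ (ω * mu 0) ^ 2 / ρ0 ^ 4 := by gcongr
              _ = (mu 0 / ρ0 ^ 2) ^ 2 * ω ^ 2 := by field_simp
              _ ≤ (32 ^ (2 * k)) ^ 2 * τ := by gcongr; nlinarith
              _ ≤ K * X := by gcongr
          calc CO * mu l ^ 2 / ρ0 ^ 4 = CO * (mu l ^ 2 / ρ0 ^ 4) := by ring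
            _ ≤ CO * (K * X) := by gcongr
            _ = CO * K * X := by ring
            _ ≤ _ := hCOKX
    have c1 := FE01.J_M_le hmu measurableSet_ball.compl (x := z 1) (S := (ball (z 1) ρ1)ᶜ)
      (by positivity) (fun l hl => (b1 l hl).1) (fun l hl => (b1 l hl).2)
    have c0 := FE01.J_M_le hmu measurableSet_ball.compl (x := z 0) (S := (ball (z 0) ρ0)ᶜ)
      (by positivity) (fun l hl => (b0 l hl).1) (fun l hl => (b0 l hl).2)
    refine (add_le_add (add_le_add (add_le_add (a1 _) (a1 _)) (add_le_add a2 a3))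
      (add_le_add c1 c0)).trans ?_
    rw [← ENNReal.ofReal_add (by positivity) (by positivity),
      ← ENNReal.ofReal_add (by positivity) (by positivity),
      ← ENNReal.ofReal_add (by positivity) (by positivity),
      ← ENNReal.ofReal_add (by positivity) (by positivity),
      ← ENNReal.ofReal_add (by positivity) (by positivity)]
    refine ENNReal.ofReal_le_ofReal (le_of_eq ?_)
    ring
  calc ENNReal.ofReal (cG * C4) * ∫⁻ y, ENNReal.ofReal
        (FE01.maj p (z 1) (z 0) R ρ1 ρ0 k mu z y)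
      ≤ ENNReal.ofReal (cG * C4) * ENNReal.ofReal ((24 * CB + 4 * k * CU) * X) := by gcongr
    _ = ENNReal.ofReal (cG * C4 * ((24 * CB + 4 * k * CU) * X)) :=
        (ENNReal.ofReal_mul (by positivity)).symm
    _ ≤ _ := by
        refine ENNReal.ofReal_le_ofReal ?_
        nlinarith

end Pool.Helper4.BT
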