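import Pool.Agent.Helper7.BT.JJb
import Pool.Agent.Helper83.BT.CHI
import Pool.Agent.Helper83.BT.POH
import Pool.Agent.Helper81.BT.UINT

/-! Potentials of a bubble outside of a ball (used in the blocks FE1a, FE0, FE01). -/

namespace Pool.Helper4.BT
open MeasureTheory Metric Set

namespace OUT

lemma J_le_mul {m : ℕ} {f g : E → ℝ} {x : E} {c K b : ℝ} (hc : 0 ≤ c)
    (h : ∀ y, f y ≤ c * g y) (hg : J m g x ≤ ENNReal.ofReal K) (hb : c * K ≤ b) :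
    J m f x ≤ ENNReal.ofReal b := by
  calc J m f x ≤ J m (fun y => c * g y) x := J_mono h x
    _ = ENNReal.ofReal c * J m g x := J_const_mul c hc g x
    _ ≤ ENNReal.ofReal c * ENNReal.ofReal K := by gcongr
    _ = ENNReal.ofReal (c * K) := (ENNReal.ofReal_mul hc).symm
    _ ≤ _ := ENNReal.ofReal_le_ofReal hb

lemma J_le_of_le {m : ℕ} {f g : E → ℝ} {x : E} {K b : ℝ}
    (h : ∀ y, f y ≤ g y) (hg : J m g x ≤ ENNReal.ofReal K) (hb : K ≤ b) :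
    J m f x ≤ ENNReal.ofReal b :=
  ((J_mono h x).trans hg).trans (ENNReal.ofReal_le_ofReal hb)

lemma J_sum_le {ι : Type*} {m : ℕ} (s : Finset ι) (f : ι → E → ℝ)
    (hf : ∀ i ∈ s, Measurable (f i)) (x : E) :
    J m (fun y => ∑ i ∈ s, f i y) x ≤ ∑ i ∈ s, J m (f i) x := by
  classical
  induction s using Finset.induction_on with
  | empty => simp [J]
  | insert a s ha ih =>
    rw [Finset.sum_insert ha]
    have h1 : (fun y => ∑ i ∈ insert a s, f i y) = fun y => f a y + ∑ i ∈ s, f i y := by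
      funext y
      rw [Finset.sum_insert ha]
    rw [h1]
    have hm : Measurable fun y => ∑ i ∈ s, f i y :=
      Finset.measurable_fun_sum s fun i hi => hf i (Finset.mem_insert_of_mem hi)
    exact (J_add_le (f a) _ hm x).trans
      (add_le_add le_rfl (ih fun i hi => hf i (Finset.mem_insert_of_mem hi)))

lemma sq_le_A (ρ : ℝ) (c x : E) : ρ ^ 2 ≤ A ρ c x := by
  unfold A; nlinarith [sq_nonneg ‖x - c‖]

lemma le_sqrt_A {ρ : ℝ} (hρ : 0 < ρ) (c x : E) : ρ ≤ √(A ρ c x) :=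
  Real.le_sqrt_of_sq_le (sq_le_A ρ c x)

/-- potentials of a bubble outside of a ball -/
theorem outside : ∃ C : ℝ, 0 < C ∧ ∀ (μ ρ : ℝ) (z c x : E), 0 < μ → 0 < ρ → ‖x - c‖ ≤ 2 * ρ →
    (‖z - c‖ ≤ ρ / 4 →
      J 4 (((ball c ρ)ᶜ).indicator (U μ z)) x ≤ ENNReal.ofReal (C * μ ^ 2 / ρ ^ 2) ∧
      J 5 (((ball c ρ)ᶜ).indicator (U μ z)) x ≤ ENNReal.ofReal (C * μ ^ 2 / ρ ^ 3) ∧
      J 4 (((ball c ρ)ᶜ).indicator (fun y => U μ z y ^ 2)) x
        ≤ ENNReal.ofReal (C * μ ^ 4 / ρ ^ 6) ∧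
      J 5 (((ball c ρ)ᶜ).indicator (fun y => U μ z y ^ 2)) x
        ≤ ENNReal.ofReal (C * μ ^ 4 / ρ ^ 7)) ∧
    (8 * ρ ≤ ‖z - c‖ →
      J 4 (U μ z) x ≤ ENNReal.ofReal (C * μ ^ 2 / ρ ^ 2) ∧
      J 5 (U μ z) x ≤ ENNReal.ofReal (C * μ ^ 2 / ρ ^ 3) ∧
      J 4 (fun y => U μ z y ^ 2) x ≤ ENNReal.ofReal (C * μ ^ 2 / ρ ^ 4) ∧
      J 5 (fun y => U μ z y ^ 2) x ≤ ENNReal.ofReal (C * μ ^ 2 / ρ ^ 5)) := by
  obtain ⟨C1, hC1, h1⟩ := J_U
  obtain ⟨C2, hC2, h2⟩ := J_U_sq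
  refine ⟨13 * C1 + 169 * 24 * C2, by positivity, ?_⟩
  intro μ ρ z c x hμ hρ hx
  constructor
  · intro hz
    have hA : 0 < A ρ c x := UINT_A_pos hρ c x
    have hA2 := sq_le_A ρ c x
    have hs := le_sqrt_A hρ c x
    have hs0 : 0 < √(A ρ c x) := lt_of_lt_of_le hρ hs
    have hU : U ρ c x ≤ 24 / ρ ^ 2 := by
      unfold U
      rw [div_le_div_iff₀ (by positivity) (by positivity)]
      have : ρ ^ 2 * ρ ^ 2 ≤ A ρ c x ^ 2 := by
        rw [sq (A ρ c x)]; gcongr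
      nlinarith
    have hU0 := UINT_U_nonneg ρ c x
    have hp : ∀ y, ((ball c ρ)ᶜ).indicator (U μ z) y ≤ 13 * (μ ^ 2 / ρ ^ 2) * U ρ c y := by
      intro y
      by_cases hy : y ∈ (ball c ρ)ᶜ
      · rw [indicator_of_mem hy]
        refine U_cmp hμ hρ hz ?_
        rw [mem_compl_iff, mem_ball, not_lt, dist_eq_norm] at hy
        exact hy
      · rw [indicator_of_notMem hy]
        have := UINT_U_nonneg ρ c y
        positivity
    have hp2 : ∀ y, ((ball c ρ)ᶜ).indicator (fun y => U μ z y ^ 2) y ≤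
        169 * (μ ^ 4 / ρ ^ 4) * U ρ c y ^ 2 := by
      intro y
      by_cases hy : y ∈ (ball c ρ)ᶜ
      · have := hp y
        rw [indicator_of_mem hy] at this ⊢
        calc U μ z y ^ 2 ≤ (13 * (μ ^ 2 / ρ ^ 2) * U ρ c y) ^ 2 := by
              have := UINT_U_nonneg μ z y
              gcongr
          _ = _ := by ring
      · rw [indicator_of_notMem hy]
        positivity
    obtain ⟨a1, a2⟩ := h1 ρ c x hρ
    obtain ⟨b1, b2⟩ := h2 ρ c x hρ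
    refine ⟨J_le_mul (by positivity) hp a1 ?_, J_le_mul (by positivity) hp a2 ?_,
      J_le_mul (by positivity) hp2 b1 ?_, J_le_mul (by positivity) hp2 b2 ?_⟩
    · have h3 : C1 * ρ ^ 2 / A ρ c x ≤ C1 := by
        rw [div_le_iff₀ hA]
        gcongr
      calc 13 * (μ ^ 2 / ρ ^ 2) * (C1 * ρ ^ 2 / A ρ c x) ≤ 13 * (μ ^ 2 / ρ ^ 2) * C1 := by gcongr
        _ = 13 * C1 * μ ^ 2 / ρ ^ 2 := by ring
        _ ≤ _ := by gcongr; nlinarith
    · have h3 : C1 * ρ ^ 2 / (A ρ c x * √(A ρ c x)) ≤ C1 / ρ := by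
        rw [div_le_div_iff₀ (by positivity) hρ]
        calc C1 * ρ ^ 2 * ρ = C1 * (ρ ^ 2 * ρ) := by ring
          _ ≤ C1 * (A ρ c x * √(A ρ c x)) := by gcongr
      calc 13 * (μ ^ 2 / ρ ^ 2) * (C1 * ρ ^ 2 / (A ρ c x * √(A ρ c x)))
          ≤ 13 * (μ ^ 2 / ρ ^ 2) * (C1 / ρ) := by gcongr
        _ = 13 * C1 * μ ^ 2 / ρ ^ 3 := by field_simp
        _ ≤ _ := by gcongr; nlinarith
    · calc 169 * (μ ^ 4 / ρ ^ 4) * (C2 * U ρ c x) ≤ 169 * (μ ^ 4 / ρ ^ 4) * (C2 * (24 / ρ ^ 2)) := by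
            gcongr
        _ = 169 * 24 * C2 * μ ^ 4 / ρ ^ 6 := by field_simp
        _ ≤ _ := by gcongr; nlinarith
    · have h3 : C2 * U ρ c x / √(A ρ c x) ≤ C2 * (24 / ρ ^ 2) / ρ := by
        gcongr
      calc 169 * (μ ^ 4 / ρ ^ 4) * (C2 * U ρ c x / √(A ρ c x))
          ≤ 169 * (μ ^ 4 / ρ ^ 4) * (C2 * (24 / ρ ^ 2) / ρ) := by gcongr
        _ = 169 * 24 * C2 * μ ^ 4 / ρ ^ 7 := by field_simp
        _ ≤ _ := by gcongr; nlinarith
  · intro hz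
    have hxz : 6 * ρ ≤ ‖x - z‖ := by
      have : ‖z - c‖ ≤ ‖x - z‖ + ‖x - c‖ := by
        have h3 : z - c = -(x - z) + (x - c) := by abel
        rw [h3]
        refine (norm_add_le _ _).trans ?_
        rw [norm_neg]
      linarith
    have hA : 0 < A μ z x := UINT_A_pos hμ z x
    have hA2 : (6 * ρ) ^ 2 ≤ A μ z x := by
      unfold A
      have : (6 * ρ) ^ 2 ≤ ‖x - z‖ ^ 2 := by gcongr
      nlinarith [sq_nonneg μ]
    have hA3 : ρ ^ 2 ≤ A μ z x := by nlinarith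
    have hs : ρ ≤ √(A μ z x) := Real.le_sqrt_of_sq_le hA3
    have hs0 : 0 < √(A μ z x) := lt_of_lt_of_le hρ hs
    have hU : U μ z x ≤ μ ^ 2 / ρ ^ 4 := by
      unfold U
      rw [div_le_div_iff₀ (by positivity) (by positivity)]
      have : ((6 * ρ) ^ 2) ^ 2 ≤ A μ z x ^ 2 := by gcongr
      have h4 : 24 * μ ^ 2 * ρ ^ 4 ≤ μ ^ 2 * ((6 * ρ) ^ 2) ^ 2 := by
        have : 0 ≤ μ ^ 2 * ρ ^ 4 := by positivity
        nlinarith
      nlinarith [sq_nonneg μ]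
    have hU0 := UINT_U_nonneg μ z x
    obtain ⟨a1, a2⟩ := h1 μ z x hμ
    obtain ⟨b1, b2⟩ := h2 μ z x hμ
    refine ⟨a1.trans (ENNReal.ofReal_le_ofReal ?_), a2.trans (ENNReal.ofReal_le_ofReal ?_),
      b1.trans (ENNReal.ofReal_le_ofReal ?_), b2.trans (ENNReal.ofReal_le_ofReal ?_)⟩
    · calc C1 * μ ^ 2 / A μ z x ≤ C1 * μ ^ 2 / ρ ^ 2 := by gcongr
        _ ≤ _ := by gcongr; nlinarith
    · calc C1 * μ ^ 2 / (A μ z x * √(A μ z x)) ≤ C1 * μ ^ 2 / (ρ ^ 2 * ρ) := by gcongr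
        _ = C1 * μ ^ 2 / ρ ^ 3 := by congr 1
        _ ≤ _ := by gcongr; nlinarith
    · calc C2 * U μ z x ≤ C2 * (μ ^ 2 / ρ ^ 4) := by gcongr
        _ = C2 * μ ^ 2 / ρ ^ 4 := by ring
        _ ≤ _ := by gcongr; nlinarith
    · calc C2 * U μ z x / √(A μ z x) ≤ C2 * (μ ^ 2 / ρ ^ 4) / ρ := by gcongr
        _ = C2 * μ ^ 2 / ρ ^ 5 := by field_simp
        _ ≤ _ := by gcongr; nlinarith

end OUT

end Pool.Helper4.BT
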